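import Mathlib

/-!
Statements of the parts of the construction of a set of reals under `cov(𝓜) = 𝔠`
(MP_ef066b_gt).
-/

set_option autoImplicit false

namespace Pool.Agent.N355.MA

open Set Filter Topology Cardinal TopologicalSpace

/-- `cov(𝓜) = 𝔠`: the real line is not the union of fewer than continuum many nowhere dense
sets. -/
def CovM : Prop := ∀ 𝓐 : Set (Set ℝ), #𝓐 < 𝔠 → (∀ N ∈ 𝓐, IsNowhereDense N) → ⋃₀ 𝓐 ≠ Set.univ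

/-- fewer than continuum many residual sets have a common point -/
def INTER : Prop := ∀ (ι : Type), #ι < 𝔠 → ∀ S : ι → Set ℝ, (∀ i, S i ∈ residual ℝ) →
  ∃ r, ∀ i, r ∈ S i

def INTER_stm : Prop := CovM → INTER

/-- fewer than continuum many functions are bounded infinitely often by one function -/
def BOUND_stm : Prop := INTER → ∀ (ι : Type), #ι < 𝔠 → ∀ f : ι → ℕ → ℕ,
  ∃ g : ℕ → ℕ, ∀ i, {n | f i n ≤ g n}.Infinite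

/-- fewer than continuum many functions are guessed by one function -/
def GUESS_stm : Prop := INTER → ∀ (ι : Type), #ι < 𝔠 → ∀ f : ι → ℕ → ℕ,
  ∃ g : ℕ → ℕ, ∀ i, ∃ n, g n = f i n

/-- sets with fewer than continuum many points are Rothberger -/
def SMALL_stm : Prop :=
  (∀ (ι : Type), #ι < 𝔠 → ∀ f : ι → ℕ → ℕ, ∃ g : ℕ → ℕ, ∀ i, ∃ n, g n = f i n) →
  ∀ C : Set ℝ, #C < 𝔠 → ∀ 𝒱 : ℕ → Set (Set ℝ), (∀ n, ∀ V ∈ 𝒱 n, IsOpen V) →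
    (∀ n, C ⊆ ⋃₀ 𝒱 n) → ∃ V : ℕ → Set ℝ, (∀ n, V n ∈ 𝒱 n) ∧ C ⊆ ⋃ n, V n

/-- `𝓕` is a partition of `𝒰` into nonempty finite sets. -/
def IsPart (𝒰 : Set (Set ℝ)) (𝓕 : ℕ → Set (Set ℝ)) : Prop :=
  (∀ n, (𝓕 n).Finite) ∧ (∀ n, (𝓕 n).Nonempty) ∧ (∀ m n, m ≠ n → Disjoint (𝓕 m) (𝓕 n)) ∧
    𝒰 = ⋃ n, 𝓕 n

/-- from a partition in which every finite set is caught infinitely often to a multifinite
partition or a partition without covering blocks -/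
def REPART_stm : Prop := ∀ (X : Set ℝ) (𝒰 : Set (Set ℝ)) (𝓕 : ℕ → Set (Set ℝ)),
  IsPart 𝒰 𝓕 → (∀ u ∈ 𝒰, u ⊆ X ∧ u ≠ X) →
  (∀ F : Finset ℝ, (F : Set ℝ) ⊆ X → {n | (F : Set ℝ) ⊆ ⋃₀ 𝓕 n}.Infinite) →
  (∃ 𝓖, IsPart 𝒰 𝓖 ∧ ∀ n, ⋃₀ 𝓖 n = X) ∨
  (∃ 𝓖, IsPart 𝒰 𝓖 ∧ (∀ n, ⋃₀ 𝓖 n ≠ X) ∧
    ∀ F : Finset ℝ, (F : Set ℝ) ⊆ X → ∃ n, (F : Set ℝ) ⊆ ⋃₀ 𝓖 n)

end Pool.Agent.N355.MA
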