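import Pool.Agent.R824.Sums
import Pool.Agent.N355.MA.Stm

/-!
Selection of a sequence of members of omega-covers with a partition of the range into finite
blocks such that every finite set is caught by infinitely many blocks.  (Adapted from the proof of
`MP_82c070_gt.ConsistentlyDifferent`.)
-/

set_option autoImplicit false

namespace Pool.Agent.N355.MA

open Set Filter Topology Cardinal TopologicalSpace

/-- A block structure from the functional Scheepers property. -/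
theorem exists_blocks_inf {X : Set ℝ} {W : ℕ → ℕ → Set ℝ}
    (hWo : ∀ a n, IsOpen (W a n)) (hWc : ∀ a, X ⊆ ⋃ k, W a (a + k))
    (hS : ∀ O : ℕ → ℕ → Set ℝ, (∀ n m, IsOpen (O n m)) → (∀ n, Monotone (O n)) →
      (∀ n, X ⊆ ⋃ m, O n m) → ∃ h : ℕ → ℕ, ∀ F : Finset ℝ, (F : Set ℝ) ⊆ X →
        {n | (F : Set ℝ) ⊆ O n (h n)}.Infinite) :
    ∃ d : ℕ → ℕ, StrictMono d ∧ d 0 = 0 ∧ ∀ F : Finset ℝ, (F : Set ℝ) ⊆ X →
      {j | (F : Set ℝ) ⊆ ⋃ n ∈ Ico (d j) (d (j + 1)), W (d j) n}.Infinite := by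
  classical
  let O : ℕ → ℕ → Set ℝ := fun a m => ⋂ a' ∈ Finset.range (a + 1), ⋃ k ∈ Finset.range m,
    W a' (a' + k)
  have hOo : ∀ a m, IsOpen (O a m) := fun a m =>
    isOpen_biInter_finset fun a' _ => isOpen_biUnion fun k _ => hWo _ _
  have hOm : ∀ a, Monotone (O a) := by
    intro a m m' hmm y hy
    simp only [O, mem_iInter] at hy ⊢
    intro a' ha'
    obtain ⟨k, hk, hyk⟩ := mem_iUnion₂.1 (hy a' ha')
    exact mem_iUnion₂.2 ⟨k, Finset.mem_range.2 ((Finset.mem_range.1 hk).trans_le hmm), hyk⟩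
  have hOc : ∀ a, X ⊆ ⋃ m, O a m := by
    intro a y hy
    have h1 : ∀ a', ∃ k, y ∈ W a' (a' + k) := fun a' => mem_iUnion.1 (hWc a' hy)
    choose k hk using h1
    refine mem_iUnion.2 ⟨(Finset.range (a + 1)).sup k + 1, ?_⟩
    simp only [O, mem_iInter]
    intro a' ha'
    refine mem_iUnion₂.2 ⟨k a', ?_, hk a'⟩
    exact Finset.mem_range.2 (Nat.lt_succ_of_le (Finset.le_sup ha'))
  obtain ⟨h, hh⟩ := hS O hOo hOm hOc
  let hm : ℕ → ℕ := fun a => (Finset.range (a + 1)).sup h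
  have hmono : Monotone hm := by
    intro a b hab
    exact Finset.sup_mono (by
      intro i hi
      exact Finset.mem_range.2 (by have := Finset.mem_range.1 hi; omega))
  have hle : ∀ a, h a ≤ hm a := fun a =>
    Finset.le_sup (f := h) (Finset.mem_range.2 (Nat.lt_succ_self a))
  obtain ⟨c, hc0, hcs⟩ : ∃ c : ℕ → ℕ, c 0 = 0 ∧ ∀ k, c (k + 1) = c k + 1 + hm (c k) :=
    ⟨fun k => Nat.rec 0 (fun _ x => x + 1 + hm x) k, rfl, fun _ => rfl⟩
  have hcmono : StrictMono c := strictMono_nat_of_lt_succ fun k => by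
    rw [hcs]; omega
  let K : Finset ℝ → Set ℕ := fun F =>
    {k | (F : Set ℝ) ⊆ ⋃ n ∈ Ico (c k) (c (k + 2)), W (c k) n}
  have hK : ∀ F : Finset ℝ, (F : Set ℝ) ⊆ X → ∀ N, ∃ k ∈ K F, N ≤ k := by
    intro F hF N
    obtain ⟨a, ha, haN⟩ := (hh F hF).exists_gt (c N)
    -- the block of `a`
    have hex : ∃ k, c k ≤ a ∧ a < c (k + 1) := by
      have h1 : ∃ k, a < c k := ⟨a + 1, lt_of_lt_of_le (Nat.lt_succ_self a) (hcmono.le_apply)⟩
      classical
      have h2 := Nat.find_spec h1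
      have h3 : Nat.find h1 ≠ 0 := by
        intro h4
        rw [h4, hc0] at h2
        omega
      obtain ⟨k, hk⟩ := Nat.exists_eq_succ_of_ne_zero h3
      refine ⟨k, ?_, ?_⟩
      · exact not_lt.1 (Nat.find_min h1 (by rw [hk]; exact Nat.lt_succ_self k))
      · rw [hk] at h2
        exact h2
    obtain ⟨k, hk1, hk2⟩ := hex
    have hNk : N ≤ k := by
      have h1 : c N < c (k + 1) := haN.trans hk2
      have := hcmono.lt_iff_lt.1 h1
      omega
    refine ⟨k, ?_, hNk⟩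
    intro y hy
    have h1 : y ∈ O a (h a) := ha hy
    simp only [O, mem_iInter] at h1
    obtain ⟨i, hi, hyi⟩ := mem_iUnion₂.1 (h1 (c k) (Finset.mem_range.2 (by omega)))
    refine mem_iUnion₂.2 ⟨c k + i, ⟨by omega, ?_⟩, hyi⟩
    have h2 := Finset.mem_range.1 hi
    have h3 : h a ≤ hm (c (k + 1)) := (hle a).trans (hmono hk2.le)
    have h4 := hcs (k + 1)
    have h5 : c k < c (k + 1) := hcmono (Nat.lt_succ_self k)
    show c k + i < c (k + 1 + 1)
    omega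
  have hKanti : ∀ F F' : Finset ℝ, F ⊆ F' → K F' ⊆ K F := fun F F' hFF k hk y hy =>
    hk (hFF hy)
  by_cases hev : ∀ F : Finset ℝ, (F : Set ℝ) ⊆ X → ∀ N, ∃ k ∈ K F, N ≤ k ∧ Even k
  · refine ⟨fun j => c (2 * j), fun i j hij => hcmono (show 2 * i < 2 * j by omega), by simp [hc0],
      fun F hF => ?_⟩
    refine infinite_of_not_bddAbove ?_
    rintro ⟨N, hN⟩
    obtain ⟨k, hk, hkN, j, hj⟩ := hev F hF (2 * N + 2)
    have h1 : k = 2 * j := by omega
    subst h1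
    have h3 := hN (show j ∈ {j | (F : Set ℝ) ⊆ ⋃ n ∈ Ico (c (2 * j)) (c (2 * (j + 1))),
      W (c (2 * j)) n} by
        have h2 : 2 * (j + 1) = 2 * j + 2 := by ring
        simp only [mem_ofPred_eq, h2]
        exact hk)
    omega
  · push Not at hev
    obtain ⟨F₀, hF₀, N₀, hF₀e⟩ := hev
    refine ⟨fun j => if j = 0 then 0 else c (2 * j - 1), ?_, by simp, fun F hF => ?_⟩
    · refine strictMono_nat_of_lt_succ fun j => ?_
      rcases Nat.eq_zero_or_pos j with rfl | hj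
      · simp only [if_true]
        have : c 0 < c 1 := hcmono Nat.zero_lt_one
        simpa [hc0] using this
      · have h1 : j ≠ 0 := by omega
        simp only [h1, if_false, Nat.succ_ne_zero]
        exact hcmono (show 2 * j - 1 < 2 * (j + 1) - 1 by omega)
    · refine infinite_of_not_bddAbove ?_
      rintro ⟨N, hN⟩
      obtain ⟨k, hk, hk1⟩ := hK (F ∪ F₀) (by
        rw [Finset.coe_union]
        exact union_subset hF hF₀) (N₀ + 2 * N + 4)
      have hodd : ¬ Even k := hF₀e k (hKanti _ _ Finset.subset_union_right hk) (by omega)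
      rw [Nat.not_even_iff_odd] at hodd
      obtain ⟨j, hj⟩ := hodd
      have h1 : 2 * (j + 1) - 1 = k := by omega
      have h2 : 2 * (j + 1 + 1) - 1 = k + 2 := by omega
      have h3 := hN (show j + 1 ∈ {j | (F : Set ℝ) ⊆ ⋃ n ∈ Ico (if j = 0 then 0 else c (2 * j - 1))
        (if j + 1 = 0 then 0 else c (2 * (j + 1) - 1)), W (if j = 0 then 0 else c (2 * j - 1)) n} by
          simp only [mem_ofPred_eq, Nat.succ_ne_zero, if_false, h1, h2]
          exact hKanti _ _ Finset.subset_union_left hk)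
      omega

/-- The Rothberger property together with the functional form of the Scheepers property gives
`S₁(Ω, O^{ω-gp})`. -/
theorem s1_part {X : Set ℝ} (hne : X.Nonempty)
    (hR : ∀ 𝒱 : ℕ → Set (Set ℝ), (∀ n, ∀ V ∈ 𝒱 n, IsOpen V) → (∀ n, X ⊆ ⋃₀ 𝒱 n) →
      ∃ V : ℕ → Set ℝ, (∀ n, V n ∈ 𝒱 n) ∧ X ⊆ ⋃ n, V n)
    (hS : ∀ O : ℕ → ℕ → Set ℝ, (∀ n m, IsOpen (O n m)) → (∀ n, Monotone (O n)) →
      (∀ n, X ⊆ ⋃ m, O n m) → ∃ h : ℕ → ℕ, ∀ F : Finset ℝ, (F : Set ℝ) ⊆ X →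
        {n | (F : Set ℝ) ⊆ O n (h n)}.Infinite) :
    ∀ 𝒰 : ℕ → Set (Set ℝ), (∀ n, (∀ u ∈ 𝒰 n, ∃ v : Set ℝ, IsOpen v ∧ u = X ∩ v) ∧ X ∉ 𝒰 n ∧
      ∀ F : Finset ℝ, (F : Set ℝ) ⊆ X → ∃ u ∈ 𝒰 n, (F : Set ℝ) ⊆ u) →
    ∃ G : ℕ → Set ℝ, (∀ n, G n ∈ 𝒰 n) ∧ ∃ 𝓕 : ℕ → Set (Set ℝ), IsPart (range G) 𝓕 ∧
      ∀ F : Finset ℝ, (F : Set ℝ) ⊆ X → {n | (F : Set ℝ) ⊆ ⋃₀ 𝓕 n}.Infinite := by
  classical
  intro 𝒰 h𝒰
  -- finitely many members can be discarded
  have hdiscard : ∀ n, ∀ 𝓗 : Set (Set ℝ), 𝓗.Finite → ∀ x ∈ X, ∃ u ∈ 𝒰 n, u ∉ 𝓗 ∧ x ∈ u := by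
    intro n 𝓗 h𝓗 x hx
    have h1 : ∀ H ∈ 𝓗 ∩ 𝒰 n, ∃ p ∈ X, p ∉ H := by
      rintro H ⟨-, hH⟩
      by_contra hcon
      push Not at hcon
      have h2 : H ⊆ X := by
        obtain ⟨v, -, rfl⟩ := (h𝒰 n).1 H hH
        exact inter_subset_left
      exact (h𝒰 n).2.1 (by rw [← h2.antisymm hcon]; exact hH)
    choose! p hpX hpH using h1
    have hfin : (𝓗 ∩ 𝒰 n).Finite := h𝓗.inter_of_left _
    obtain ⟨u, hu, hFu⟩ := (h𝒰 n).2.2 (insert x (hfin.toFinset.image p)) (by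
      intro y hy
      rcases Finset.mem_insert.1 (Finset.mem_coe.1 hy) with rfl | hy
      · exact hx
      · obtain ⟨H, hH, rfl⟩ := Finset.mem_image.1 hy
        exact hpX H (hfin.mem_toFinset.1 hH))
    refine ⟨u, hu, fun hu𝓗 => ?_, hFu (by simp)⟩
    refine hpH u ⟨hu𝓗, hu⟩ (hFu ?_)
    exact Finset.mem_coe.2 (Finset.mem_insert_of_mem
      (Finset.mem_image_of_mem _ (hfin.mem_toFinset.2 ⟨hu𝓗, hu⟩)))
  -- the selections, by recursion on the starting point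
  obtain ⟨W, hW⟩ := Pool.Agent.R824.Sums.exists_transfinite (ι := ℕ) (E := ℕ → Set ℝ)
    (fun a prev y => (∀ n, y n ∈ 𝒰 n) ∧ X ⊆ ⋃ k, y (a + k) ∧
      ∀ n, ∀ a' < a, ∀ n' < a, y n ≠ prev a' n') (by
      intro a prev
      let 𝓗 : Set (Set ℝ) := (fun q : ℕ × ℕ => prev q.1 q.2) '' (Iio a ×ˢ Iio a)
      have h𝓗 : 𝓗.Finite := ((finite_Iio a).prod (finite_Iio a)).image _
      obtain ⟨V, hV, hVX⟩ := hR (fun k => {v | IsOpen v ∧ X ∩ v ∈ 𝒰 (a + k) ∧ X ∩ v ∉ 𝓗})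
        (fun k v hv => hv.1) (by
          intro k x hx
          obtain ⟨u, hu, huH, hxu⟩ := hdiscard (a + k) 𝓗 h𝓗 x hx
          obtain ⟨v, hv, rfl⟩ := (h𝒰 (a + k)).1 u hu
          exact ⟨v, ⟨hv, hu, huH⟩, hxu.2⟩)
      obtain ⟨x₀, hx₀⟩ := hne
      have hdef : ∀ n, ∃ u ∈ 𝒰 n, u ∉ 𝓗 := fun n => by
        obtain ⟨u, h1, h2, -⟩ := hdiscard n 𝓗 h𝓗 x₀ hx₀
        exact ⟨u, h1, h2⟩
      choose u0 hu0 hu0H using hdef
      refine ⟨fun n => if a ≤ n then X ∩ V (n - a) else u0 n, fun n => ?_, fun x hx => ?_,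
        fun n a' ha' n' hn' => ?_⟩
      · by_cases han : a ≤ n
        · simp only [han, if_true]
          have h1 := (hV (n - a)).2.1
          have h2 : a + (n - a) = n := by omega
          rw [h2] at h1
          exact h1
        · simp only [han, if_false]
          exact hu0 n
      · obtain ⟨k, hk⟩ := mem_iUnion.1 (hVX hx)
        refine mem_iUnion.2 ⟨k, ?_⟩
        have h1 : a ≤ a + k := by omega
        have h2 : a + k - a = k := by omega
        simp only [h1, if_true, h2]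
        exact ⟨hx, hk⟩
      · have hmem : prev a' n' ∈ 𝓗 := ⟨(a', n'), ⟨ha', hn'⟩, rfl⟩
        by_cases han : a ≤ n
        · simp only [han, if_true]
          intro h
          rw [← h] at hmem
          exact (hV (n - a)).2.2 hmem
        · simp only [han, if_false]
          intro h
          rw [← h] at hmem
          exact hu0H n hmem) (by
      intro a prev prev' y hprev hy
      refine ⟨hy.1, hy.2.1, fun n a' ha' n' hn' => ?_⟩
      rw [← hprev a' ha']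
      exact hy.2.2 n a' ha' n' hn')
  -- open sets of the real line with the selected traces
  have hlift : ∀ a n, ∃ v : Set ℝ, IsOpen v ∧ W a n = X ∩ v := fun a n =>
    (h𝒰 n).1 _ ((hW a).1 n)
  choose V hVo hWV using hlift
  obtain ⟨d, hd, hd0, hblk⟩ := exists_blocks_inf (X := X) (W := V) hVo (by
    intro a x hx
    obtain ⟨k, hk⟩ := mem_iUnion.1 ((hW a).2.1 hx)
    rw [hWV] at hk
    exact mem_iUnion.2 ⟨k, hk.2⟩) hS
  -- the block of an index
  have hblock : ∀ n, ∃ j, d j ≤ n ∧ n < d (j + 1) := by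
    intro n
    have h1 : ∃ k, n < d k := ⟨n + 1, lt_of_lt_of_le (Nat.lt_succ_self n) hd.le_apply⟩
    have h2 := Nat.find_spec h1
    have h3 : Nat.find h1 ≠ 0 := by
      intro h4
      rw [h4, hd0] at h2
      omega
    obtain ⟨k, hk⟩ := Nat.exists_eq_succ_of_ne_zero h3
    refine ⟨k, ?_, ?_⟩
    · exact not_lt.1 (Nat.find_min h1 (by rw [hk]; exact Nat.lt_succ_self k))
    · rw [hk] at h2
      exact h2
  choose jj hj1 hj2 using hblock
  have hjj : ∀ n j, d j ≤ n → n < d (j + 1) → jj n = j := by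
    intro n j h1 h2
    have h3 := hd.lt_iff_lt.1 ((hj1 n).trans_lt h2)
    have h4 := hd.lt_iff_lt.1 (h1.trans_lt (hj2 n))
    omega
  let G : ℕ → Set ℝ := fun n => W (d (jj n)) n
  have hG : ∀ n, G n ∈ 𝒰 n := fun n => (hW _).1 n
  have hGX : ∀ n, G n ⊆ X := by
    intro n
    rw [show G n = X ∩ V (d (jj n)) n from hWV _ _]
    exact inter_subset_left
  have hgp : ∀ F : Finset ℝ, (F : Set ℝ) ⊆ X →
      {j | (F : Set ℝ) ⊆ ⋃₀ (G '' Ico (d j) (d (j + 1)))}.Infinite := by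
    intro F hF
    refine (hblk F hF).mono fun j hj x hx => ?_
    obtain ⟨n, hn, hxn⟩ := mem_iUnion₂.1 (hj hx)
    refine ⟨G n, mem_image_of_mem _ hn, ?_⟩
    show x ∈ W (d (jj n)) n
    rw [hjj n j hn.1 hn.2, hWV]
    exact ⟨hF hx, hxn⟩
  refine ⟨G, hG, fun j => G '' Ico (d j) (d (j + 1)), ⟨fun j => (finite_Ico _ _).image _,
    fun j => ⟨G (d j), mem_image_of_mem _ ⟨le_refl _, hd (Nat.lt_succ_self j)⟩⟩, ?_, ?_⟩, hgp⟩
  · -- disjointness of the blocks
    have key : ∀ i j, i < j → Disjoint (G '' Ico (d i) (d (i + 1))) (G '' Ico (d j) (d (j + 1))) := by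
      intro i j hij
      rw [Set.disjoint_left]
      rintro _ ⟨n, hn, rfl⟩ ⟨n', hn', h⟩
      have h1 : jj n = i := hjj n i hn.1 hn.2
      have h2 : jj n' = j := hjj n' j hn'.1 hn'.2
      have h3 : d i < d j := hd hij
      have h4 : n < d j := hn.2.trans_le (hd.monotone hij)
      have h5 : W (d (jj n')) n' = W (d (jj n)) n := h
      rw [h1, h2] at h5
      exact (hW (d j)).2.2 n' (d i) h3 n h4 h5
    intro i j hij
    rcases lt_or_gt_of_ne hij with h | h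
    · exact key i j h
    · exact (key j i h).symm
  · apply Subset.antisymm
    · rintro _ ⟨n, rfl⟩
      exact mem_iUnion.2 ⟨jj n, n, ⟨hj1 n, hj2 n⟩, rfl⟩
    · intro u hu
      obtain ⟨j, n, -, rfl⟩ := mem_iUnion.1 hu
      exact mem_range_self n

end Pool.Agent.N355.MA
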