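import Pool.Agent.N355.MA.Stm

/-!
# Project MA (helper355), BOUND and GUESS (helper340)
-/

set_option autoImplicit false

namespace Pool.Agent.N355.MA

open Set Filter Topology Cardinal TopologicalSpace

/-- the centres -/
noncomputable def gua (n : ℕ) : ℝ := denseSeq ℝ n.unpair.1

/-- the radii -/
noncomputable def gud (n : ℕ) : ℝ := 1 / ((n.unpair.2 : ℝ) + 1)

theorem gud_pos (n : ℕ) : 0 < gud n := by
  unfold gud
  positivity

/-- the function with the parameter `r` -/
noncomputable def gug (r : ℝ) (n : ℕ) : ℕ := ⌊gud n / |r - gua n|⌋₊ - 1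

/-- the open sets on which the value is guessed -/
def guO (f : ℕ → ℕ) (n : ℕ) : Set ℝ :=
  {r | gud n / (f n + 2) < |r - gua n| ∧ |r - gua n| < gud n / (f n + 1)}

theorem isOpen_guO (f : ℕ → ℕ) (n : ℕ) : IsOpen (guO f n) := by
  have hc : Continuous fun r : ℝ => |r - gua n| := by fun_prop
  exact (isOpen_lt continuous_const hc).inter (isOpen_lt hc continuous_const)

theorem gug_eq {f : ℕ → ℕ} {n : ℕ} {r : ℝ} (h : r ∈ guO f n) : gug r n = f n := by
  obtain ⟨h1, h2⟩ := h
  have hd := gud_pos n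
  have h0 : 0 < |r - gua n| := lt_trans (by positivity) h1
  rw [div_lt_iff₀ (by positivity)] at h1
  rw [lt_div_iff₀ (by positivity)] at h2
  have h3 : ⌊gud n / |r - gua n|⌋₊ = f n + 1 := by
    rw [Nat.floor_eq_iff (by positivity)]
    constructor
    · rw [le_div_iff₀ h0]
      push_cast
      linarith
    · rw [div_lt_iff₀ h0]
      push_cast
      linarith
  unfold gug
  rw [h3, Nat.add_sub_cancel]

theorem dense_guO (f : ℕ → ℕ) : Dense (⋃ n, guO f n) := by
  rw [dense_iff_inter_open]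
  intro U hU hne
  obtain ⟨j, hx⟩ := (denseRange_denseSeq ℝ).exists_mem_open hU hne
  obtain ⟨ε, hε, hball⟩ := Metric.isOpen_iff.1 hU _ hx
  obtain ⟨k, hk⟩ := exists_nat_one_div_lt hε
  obtain ⟨n, hn⟩ : ∃ n, n = Nat.pair j k := ⟨_, rfl⟩
  have ha : gua n = denseSeq ℝ j := by
    unfold gua
    rw [hn, Nat.unpair_pair]
  have hd : gud n = 1 / ((k : ℝ) + 1) := by
    unfold gud
    rw [hn, Nat.unpair_pair]
  have hd0 := gud_pos n
  have h1 : gud n / (f n + 2) < gud n / (f n + 1) :=
    div_lt_div_of_pos_left hd0 (by positivity) (by linarith)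
  obtain ⟨δ, hδ1, hδ2⟩ := exists_between h1
  have hδ0 : 0 < δ := lt_trans (by positivity) hδ1
  have h2 : gud n / (f n + 1) ≤ gud n := div_le_self hd0.le (by linarith [(f n).cast_nonneg (α := ℝ)])
  refine ⟨gua n + δ, ?_, ?_⟩
  · apply hball
    rw [Metric.mem_ball, ha, Real.dist_eq, add_sub_cancel_left, abs_of_pos hδ0]
    rw [← hd] at hk
    linarith
  · rw [mem_iUnion]
    refine ⟨n, ?_, ?_⟩
    · rw [add_sub_cancel_left, abs_of_pos hδ0]
      exact hδ1
    · rw [add_sub_cancel_left, abs_of_pos hδ0]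
      exact hδ2

/-- **GUESS.** -/
theorem guess : GUESS_stm := by
  intro hI ι hι f
  obtain ⟨r, hr⟩ := hI ι hι (fun i => ⋃ n, guO (f i) n) fun i =>
    residual_of_dense_open (isOpen_iUnion fun n => isOpen_guO (f i) n) (dense_guO (f i))
  refine ⟨gug r, fun i => ?_⟩
  obtain ⟨n, hn⟩ := mem_iUnion.1 (hr i)
  exact ⟨n, gug_eq hn⟩

/-- finite modifications -/
def gum (f : ℕ → ℕ) (l : List ℕ) (n : ℕ) : ℕ := if n < l.length then l.getD n 0 else f n

/-- **BOUND.** -/
theorem bound : BOUND_stm := by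
  intro hI ι hι f
  have hcard : #(ι × List ℕ) < 𝔠 := by
    rw [Cardinal.mk_prod, Cardinal.lift_id, Cardinal.lift_id]
    refine Cardinal.mul_lt_of_lt aleph0_le_continuum hι ?_
    exact lt_of_le_of_lt Cardinal.mk_le_aleph0 aleph0_lt_continuum
  obtain ⟨g, hg⟩ := guess hI (ι × List ℕ) hcard fun p => gum (f p.1) p.2
  refine ⟨g, fun i => ?_⟩
  have h1 : {n | g n = f i n}.Infinite := by
    intro hfin
    obtain ⟨N, hN⟩ := hfin.bddAbove
    obtain ⟨n, hn⟩ := hg (i, List.ofFn fun m : Fin (N + 1) => g m + 1)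
    unfold gum at hn
    simp only [List.length_ofFn] at hn
    by_cases h : n < N + 1
    · rw [if_pos h] at hn
      rw [List.getD_eq_getElem?_getD, List.getElem?_ofFn] at hn
      simp [h] at hn
    · rw [if_neg h] at hn
      have := hN hn
      omega
  exact h1.mono fun n hn => (le_of_eq hn.symm : f i n ≤ g n)

end Pool.Agent.N355.MA
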