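import Pool.Agent.N355.MA.Stm

/-!
Fewer than continuum many residual sets of reals have a common point, under `cov(𝓜) = 𝔠`.
-/

set_option autoImplicit false

namespace Pool.Agent.N355.MA

open Set Filter Topology Cardinal TopologicalSpace

theorem inter_residual : INTER_stm := by
  intro hcov ι hι S hS
  choose T hTo hTd hTc hTS using fun i => mem_residual_iff.1 (hS i)
  have hcard : #(↥(⋃ i, compl '' T i : Set (Set ℝ))) < 𝔠 := by
    refine lt_of_le_of_lt mk_iUnion_le_sum_mk ?_
    refine lt_of_le_of_lt (sum_le_sum _ (fun _ => ℵ₀) fun i => ?_) ?_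
    · exact ((hTc i).image compl).le_aleph0
    · rw [sum_const']
      exact mul_lt_of_lt aleph0_le_continuum hι aleph0_lt_continuum
  have hnd : ∀ N ∈ (⋃ i, compl '' T i : Set (Set ℝ)), IsNowhereDense N := by
    intro N hN
    obtain ⟨i, hi⟩ := mem_iUnion.1 hN
    obtain ⟨t, ht, rfl⟩ := hi
    rw [(hTo i t ht).isClosed_compl.isNowhereDense_iff, interior_eq_empty_iff_dense_compl,
      compl_compl]
    exact hTd i t ht
  have hne := hcov _ hcard hnd
  rw [ne_univ_iff_exists_notMem] at hne
  obtain ⟨r, hr⟩ := hne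
  refine ⟨r, fun i => hTS i ?_⟩
  intro t ht
  by_contra hrt
  exact hr ⟨tᶜ, mem_iUnion.2 ⟨i, t, ht, rfl⟩, hrt⟩

end Pool.Agent.N355.MA
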