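import Pool.Agent.R824.Sums
import Pool.Agent.N355.MA.Stm

/-!
Under `cov(𝓜) = 𝔠` there is a set `X` of reals with `[0, 1] ⊆ X + X` which is Rothberger and has
the functional form of the Scheepers property.
-/

set_option autoImplicit false

namespace Pool.Agent.N355.MA

open Set Filter Topology Cardinal TopologicalSpace
open Pool.Agent.R824.Sums

/-- the index set: a well-order of type `𝔠` -/
abbrev K : Type := (𝔠 : Cardinal.{0}).ord.ToType

theorem mk_K : #K = 𝔠 := Cardinal.mk_ord_toType _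

set_option linter.deprecated false in
theorem mk_Iio_K (a : K) : #(Iio a) < 𝔠 := Cardinal.mk_Iio_ord_toType a

theorem mk_Iic_K (a : K) : #(Iic a) < 𝔠 := by
  rw [← Set.Iio_insert]
  refine (Cardinal.mk_insert_le).trans_lt ?_
  exact Cardinal.add_lt_of_lt aleph0_le_continuum (mk_Iio_K a)
    (Cardinal.one_lt_aleph0.trans_le aleph0_le_continuum)

theorem exists_surjection_K {α : Type} [Nonempty α] (h : #α ≤ 𝔠) :
    ∃ f : K → α, Function.Surjective f := by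
  rw [← mk_K] at h
  obtain ⟨g⟩ := Cardinal.le_def _ _ |>.1 h
  exact ⟨Function.invFun g, Function.invFun_surjective g.injective⟩

section recursion

variable (B : ℕ → Set ℝ) (zz : K → ℝ)

/-- the earlier points -/
def Pre (Y : K → ℝ × (ℕ → ℕ)) (a : K) : Set ℝ :=
  range ((↑) : ℚ → ℝ) ∪ ((fun b => (Y b).1) '' Iio a ∪ (fun b => zz b - (Y b).1) '' Iio a)

/-- the indices at which the finite set `F` is caught -/
def Cat (I : ℕ → Set ℕ) (h : ℕ → ℕ) (F : Finset ℝ) : Set ℕ :=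
  {n | (F : Set ℝ) ⊆ U B (I n) (h n)}

/-- the pair `y, z - y` is caught together with every finite subset of `C` -/
def Late (I : ℕ → Set ℕ) (h : ℕ → ℕ) (C : Set ℝ) (z y : ℝ) : Prop :=
  ∀ F : Finset ℝ, (F : Set ℝ) ⊆ C → (Cat B I h F).Infinite →
    {n | n ∈ Cat B I h F ∧ y ∈ U B (I n) (h n) ∧ z - y ∈ U B (I n) (h n)}.Infinite

/-- the requirements on the point and the function with index `a` -/
def Rq (e : K → ℕ → Set ℕ) (H : (ℕ → Set ℕ) → ℕ → ℕ) (a : K) (Y : K → ℝ × (ℕ → ℕ))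
    (y : ℝ × (ℕ → ℕ)) : Prop :=
  (∀ n, H (e a) n ≤ y.2 n) ∧
  ((∀ p ∈ Pre zz Y a, ∀ n, p ∈ ⋃ m, U B (e a n) m) →
    ∀ F : Finset ℝ, (F : Set ℝ) ⊆ Pre zz Y a → (Cat B (e a) y.2 F).Infinite) ∧
  (∀ c ≤ a, DenseCode B (e c) →
    ∀ n, (y.1 ∈ ⋃ m, U B (e c n) m) ∧ (zz a - y.1 ∈ ⋃ m, U B (e c n) m)) ∧
  (∀ c < a, DenseCode B (e c) → (∀ n, H (e c) n ≤ (Y c).2 n) →
    Late B (e c) (Y c).2 (Pre zz Y a) (zz a) y.1) ∧
  (DenseCode B (e a) → Late B (e a) y.2 (Pre zz Y a) (zz a) y.1)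

variable {B zz}

theorem mk_pre (Y : K → ℝ × (ℕ → ℕ)) (a : K) : #(Pre zz Y a) < 𝔠 := by
  refine (Cardinal.mk_union_le _ _).trans_lt (Cardinal.add_lt_of_lt aleph0_le_continuum ?_ ?_)
  · exact (Set.countable_range _).le_aleph0.trans_lt aleph0_lt_continuum
  · refine (Cardinal.mk_union_le _ _).trans_lt (Cardinal.add_lt_of_lt aleph0_le_continuum ?_ ?_)
    · exact Cardinal.mk_image_le.trans_lt (mk_Iio_K a)
    · exact Cardinal.mk_image_le.trans_lt (mk_Iio_K a)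

theorem pre_infinite (Y : K → ℝ × (ℕ → ℕ)) (a : K) : (Pre zz Y a).Infinite :=
  (Set.infinite_range_of_injective Rat.cast_injective).mono subset_union_left

theorem mk_fin (Y : K → ℝ × (ℕ → ℕ)) (a : K) :
    #{F : Finset ℝ // (F : Set ℝ) ⊆ Pre zz Y a} < 𝔠 := by
  classical
  have : Infinite (Pre zz Y a) := (pre_infinite Y a).to_subtype
  refine lt_of_le_of_lt ?_ (mk_pre (zz := zz) Y a)
  rw [← Cardinal.mk_finset_of_infinite (Pre zz Y a)]
  refine Cardinal.mk_le_of_injective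
    (f := fun F : {F : Finset ℝ // (F : Set ℝ) ⊆ Pre zz Y a} => F.1.subtype (· ∈ Pre zz Y a)) ?_
  intro F G h
  ext x
  have h1 : ∀ hx : x ∈ Pre zz Y a, x ∈ F.1 ↔ x ∈ G.1 := fun hx => by
    have := congrArg (fun s => (⟨x, hx⟩ : Pre zz Y a) ∈ s) h
    simpa using this
  constructor
  · intro hx
    exact (h1 (F.2 hx)).1 hx
  · intro hx
    exact (h1 (G.2 hx)).2 hx

theorem residual_dense {D : Set ℝ} (ho : IsOpen D) (hd : Dense D) (z : ℝ) :
    {y | y ∈ D ∧ z - y ∈ D} ∈ residual ℝ := by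
  have h3 : D ∈ residual ℝ := residual_of_dense_open ho hd
  have h4 : (fun y => z - y) ⁻¹' D ∈ residual ℝ :=
    residual_of_dense_open (ho.preimage (by fun_prop)) (hd.preimage (Homeomorph.subLeft z).isOpenMap)
  filter_upwards [h3, h4] with y h5 h6 using ⟨h5, h6⟩

theorem exists_family_K (hint : INTER)
    (hbd : ∀ (ι : Type), #ι < 𝔠 → ∀ f : ι → ℕ → ℕ, ∃ g : ℕ → ℕ, ∀ i, {n | f i n ≤ g n}.Infinite)
    (hB : ∀ i, IsOpen (B i)) (hb : IsTopologicalBasis (range B))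
    {H : (ℕ → Set ℕ) → ℕ → ℕ}
    (hH : ∀ I, DenseCode B I → ∀ n, ∀ z ∈ Icc (0 : ℝ) 1, ∀ j ≤ n, (B j).Nonempty →
      ∃ x ∈ B j, x ∈ U B (I n) (H I n) ∧ z - x ∈ U B (I n) (H I n))
    (hz : ∀ a, zz a ∈ Icc (0 : ℝ) 1) (e : K → ℕ → Set ℕ) :
    ∃ Y : K → ℝ × (ℕ → ℕ), ∀ a, Rq B zz e H a Y (Y a) := by
  classical
  refine exists_transfinite (fun a Y y => Rq B zz e H a Y y) (fun a Y => ?_) ?_
  · -- the function
    obtain ⟨h, hh1, hh2⟩ : ∃ h : ℕ → ℕ, (∀ n, H (e a) n ≤ h n) ∧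
        ((∀ p ∈ Pre zz Y a, ∀ n, p ∈ ⋃ m, U B (e a n) m) →
          ∀ F : Finset ℝ, (F : Set ℝ) ⊆ Pre zz Y a → (Cat B (e a) h F).Infinite) := by
      by_cases hc : ∀ p ∈ Pre zz Y a, ∀ n, p ∈ ⋃ m, U B (e a n) m
      · have h1 : ∀ p n, ∃ m, p ∈ Pre zz Y a → p ∈ U B (e a n) m := fun p n => by
          by_cases hp : p ∈ Pre zz Y a
          · obtain ⟨m, hm⟩ := mem_iUnion.1 (hc p hp n)
            exact ⟨m, fun _ => hm⟩
          · exact ⟨0, fun h => absurd h hp⟩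
        choose ψ hψ using h1
        obtain ⟨g, hg⟩ := hbd {F : Finset ℝ // (F : Set ℝ) ⊆ Pre zz Y a} (mk_fin Y a)
          (fun F n => F.1.sup (fun p => ψ p n))
        refine ⟨fun n => max (H (e a) n) (g n), fun n => le_max_left _ _, fun _ F hF => ?_⟩
        refine (hg ⟨F, hF⟩).mono fun n hn p hp => ?_
        refine U_mono _ ?_ (hψ p n (hF hp))
        exact ((Finset.le_sup (f := fun p => ψ p n) hp).trans hn).trans (le_max_right _ _)
      · exact ⟨H (e a), fun n => le_refl _, fun h => absurd h hc⟩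
    -- the point
    let hx : K → ℕ → ℕ := fun c => if c < a then (Y c).2 else h
    let S : Iic a × {F : Finset ℝ // (F : Set ℝ) ⊆ Pre zz Y a} → Set ℝ := fun q =>
      {y | DenseCode B (e q.1) →
        (∀ n, (y ∈ ⋃ m, U B (e q.1 n) m) ∧ (zz a - y ∈ ⋃ m, U B (e q.1 n) m)) ∧
        ((∀ n, H (e q.1) n ≤ hx q.1 n) → (Cat B (e q.1) (hx q.1) q.2.1).Infinite →
          {n | n ∈ Cat B (e q.1) (hx q.1) q.2.1 ∧ y ∈ U B (e q.1 n) (hx q.1 n) ∧
            zz a - y ∈ U B (e q.1 n) (hx q.1 n)}.Infinite)}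
    have hcard : #(Iic a × {F : Finset ℝ // (F : Set ℝ) ⊆ Pre zz Y a}) < 𝔠 := by
      rw [Cardinal.mk_prod, Cardinal.lift_id, Cardinal.lift_id]
      exact Cardinal.mul_lt_of_lt aleph0_le_continuum (mk_Iic_K a) (mk_fin Y a)
    have hS : ∀ q, S q ∈ residual ℝ := by
      rintro ⟨c, F⟩
      by_cases hc : DenseCode B (e c)
      swap
      · exact Eventually.of_forall fun y h => absurd h hc
      have h2 : ∀ᶠ y in residual ℝ,
          ∀ n, (y ∈ ⋃ m, U B (e c n) m) ∧ (zz a - y ∈ ⋃ m, U B (e c n) m) := by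
        rw [eventually_countable_forall]
        intro n
        exact residual_dense (isOpen_iUnion fun m => isOpen_U hB _ m) (hc n) (zz a)
      have h3 : ∀ᶠ y in residual ℝ, (∀ n, H (e c) n ≤ hx c n) →
          (Cat B (e c) (hx c) F.1).Infinite →
          {n | n ∈ Cat B (e c) (hx c) F.1 ∧ y ∈ U B (e c n) (hx c n) ∧
            zz a - y ∈ U B (e c n) (hx c n)}.Infinite := by
        by_cases hc2 : ∀ n, H (e c) n ≤ hx c n
        swap
        · exact Eventually.of_forall fun y h => absurd h hc2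
        by_cases hA : (Cat B (e c) (hx c) F.1).Infinite
        · have hq : ∀ n, ∀ z ∈ Icc (0 : ℝ) 1, ∀ j ≤ n, (B j).Nonempty →
              ∃ x ∈ B j, x ∈ U B (e c n) (hx c n) ∧ z - x ∈ U B (e c n) (hx c n) := by
            intro n z hz j hj hne
            obtain ⟨x, hx1, hx2, hx3⟩ := hH (e c) hc n z hz j hj hne
            exact ⟨x, hx1, U_mono _ (hc2 n) hx2, U_mono _ (hc2 n) hx3⟩
          filter_upwards [residual_inf hB hb (hz a) hq hA] with y hy _ _ using hy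
        · exact Eventually.of_forall fun y _ h => absurd h hA
      filter_upwards [h2, h3] with y hy2 hy3
      exact fun _ => ⟨hy2, hy3⟩
    obtain ⟨y, hy⟩ := hint _ hcard S hS
    have hxa : hx a = h := by simp [hx]
    have hxc : ∀ c < a, hx c = (Y c).2 := fun c hc => by simp [hx, hc]
    have hemp : ((∅ : Finset ℝ) : Set ℝ) ⊆ Pre zz Y a := by simp
    refine ⟨(y, h), hh1, hh2, fun c hc hcd n => ?_, fun c hc hcd hcH F hF hA => ?_,
      fun hcd F hF hA => ?_⟩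
    · exact (hy (⟨c, hc⟩, ⟨∅, hemp⟩) hcd).1 n
    · have h2 := (hy (⟨c, hc.le⟩, ⟨F, hF⟩) hcd).2
      simp only [hxc c hc] at h2
      exact h2 hcH hA
    · have h2 := (hy (⟨a, le_refl a⟩, ⟨F, hF⟩) hcd).2
      simp only [hxa] at h2
      exact h2 hh1 hA
  · intro a Y Y' y hY hy
    have hPre : Pre zz Y a = Pre zz Y' a := by
      simp only [Pre]
      congr 1
      congr 1
      · exact image_congr fun b hb => by rw [hY b hb]
      · exact image_congr fun b hb => by rw [hY b hb]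
    refine ⟨hy.1, ?_, hy.2.2.1, ?_, ?_⟩
    · rw [← hPre]
      exact hy.2.1
    · intro c hc
      rw [← hPre, ← hY c hc]
      exact hy.2.2.2.1 c hc
    · rw [← hPre]
      exact hy.2.2.2.2

/-- the set built from the family -/
def XK (zz : K → ℝ) (Y : K → ℝ × (ℕ → ℕ)) : Set ℝ :=
  range ((↑) : ℚ → ℝ) ∪ (range (fun a => (Y a).1) ∪ range fun a => zz a - (Y a).1)

theorem pre_sub_XK (Y : K → ℝ × (ℕ → ℕ)) (a : K) : Pre zz Y a ⊆ XK zz Y :=
  union_subset_union_right _ (union_subset_union (image_subset_range _ _) (image_subset_range _ _))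

theorem cat_infinite {H : (ℕ → Set ℕ) → ℕ → ℕ} {e : K → ℕ → Set ℕ} {Y : K → ℝ × (ℕ → ℕ)}
    (hY : ∀ a, Rq B zz e H a Y (Y a)) {c : K} (hc : DenseCode B (e c))
    (hcov : ∀ p ∈ Pre zz Y c, ∀ n, p ∈ ⋃ m, U B (e c n) m) (F₀ : Finset ℝ)
    (hF₀ : (F₀ : Set ℝ) ⊆ Pre zz Y c) (F : Finset K) (hF : ∀ b ∈ F, c ≤ b) :
    {n | n ∈ Cat B (e c) (Y c).2 F₀ ∧ ∀ b ∈ F, (Y b).1 ∈ U B (e c n) ((Y c).2 n) ∧
      zz b - (Y b).1 ∈ U B (e c n) ((Y c).2 n)}.Infinite := by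
  classical
  induction F using Finset.induction_on_max with
  | empty =>
    refine ((hY c).2.1 hcov F₀ hF₀).mono fun n hn => ⟨hn, fun b hb => ?_⟩
    exact absurd hb (Finset.notMem_empty b)
  | insert a s hmax ih =>
    have h1 := ih (fun b hb => hF b (Finset.mem_insert_of_mem hb))
    have hca : c ≤ a := hF a (Finset.mem_insert_self a s)
    -- the finite set of the earlier points
    let G : Finset ℝ := F₀ ∪ (s.image (fun b => (Y b).1) ∪ s.image (fun b => zz b - (Y b).1))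
    have hG : (G : Set ℝ) ⊆ Pre zz Y a := by
      intro p hp
      rcases Finset.mem_union.1 (Finset.mem_coe.1 hp) with h | h
      · rcases hF₀ h with h | h | h
        · exact Or.inl h
        · obtain ⟨b, hb, rfl⟩ := h
          exact Or.inr (Or.inl ⟨b, lt_of_lt_of_le hb hca, rfl⟩)
        · obtain ⟨b, hb, rfl⟩ := h
          exact Or.inr (Or.inr ⟨b, lt_of_lt_of_le hb hca, rfl⟩)
      · rcases Finset.mem_union.1 h with h | h
        · obtain ⟨b, hb, rfl⟩ := Finset.mem_image.1 h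
          exact Or.inr (Or.inl ⟨b, hmax b hb, rfl⟩)
        · obtain ⟨b, hb, rfl⟩ := Finset.mem_image.1 h
          exact Or.inr (Or.inr ⟨b, hmax b hb, rfl⟩)
    have hlate : Late B (e c) (Y c).2 (Pre zz Y a) (zz a) (Y a).1 := by
      rcases hca.eq_or_lt with h | h
      · subst h
        exact (hY c).2.2.2.2 hc
      · exact (hY a).2.2.2.1 c h hc (hY c).1
    have h2 := hlate G hG (h1.mono (by
      rintro n ⟨h3, h4⟩ p hp
      rcases Finset.mem_union.1 (Finset.mem_coe.1 hp) with h | h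
      · exact h3 h
      · rcases Finset.mem_union.1 h with h | h
        · obtain ⟨b, hb, rfl⟩ := Finset.mem_image.1 h
          exact (h4 b hb).1
        · obtain ⟨b, hb, rfl⟩ := Finset.mem_image.1 h
          exact (h4 b hb).2))
    refine h2.mono ?_
    rintro n ⟨h3, h4⟩
    refine ⟨fun p hp => h3 (Finset.mem_coe.2 (Finset.mem_union_left _ hp)), fun b hb => ?_⟩
    rcases Finset.mem_insert.1 hb with rfl | hb
    · exact h4
    · exact ⟨h3 (Finset.mem_coe.2 (Finset.mem_union_right _ (Finset.mem_union_left _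
        (Finset.mem_image_of_mem _ hb)))), h3 (Finset.mem_coe.2 (Finset.mem_union_right _
        (Finset.mem_union_right _ (Finset.mem_image_of_mem _ hb))))⟩

/-- For the code `I` of a sequence of open sets containing `X` the increasing pieces can be bounded
so that every finite subset of `X` is in infinitely many of the bounded pieces. -/
theorem scheepers_code_K {H : (ℕ → Set ℕ) → ℕ → ℕ} {e : K → ℕ → Set ℕ}
    (he : Function.Surjective e) {Y : K → ℝ × (ℕ → ℕ)}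
    (hY : ∀ a, Rq B zz e H a Y (Y a)) {I : ℕ → Set ℕ}
    (hI : ∀ n, XK zz Y ⊆ ⋃ m, U B (I n) m) :
    ∃ h : ℕ → ℕ, ∀ F : Finset ℝ, (F : Set ℝ) ⊆ XK zz Y →
      {n | (F : Set ℝ) ⊆ U B (I n) (h n)}.Infinite := by
  classical
  obtain ⟨c, hc⟩ := he I
  have hdense : DenseCode B (e c) := by
    intro n
    rw [hc]
    exact Rat.denseRange_cast.mono (subset_union_left.trans (hI n))
  have hcov : ∀ p ∈ Pre zz Y c, ∀ n, p ∈ ⋃ m, U B (e c n) m := by
    intro p hp n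
    rw [hc]
    exact hI n (pre_sub_XK Y c hp)
  refine ⟨(Y c).2, fun F hF => ?_⟩
  -- the indices of the other points
  have hidx : ∀ y ∈ XK zz Y, y ∉ Pre zz Y c → ∃ a, c ≤ a ∧ (y = (Y a).1 ∨ y = zz a - (Y a).1) := by
    rintro y (hy | ⟨a, rfl⟩ | ⟨a, rfl⟩) hyC
    · exact absurd (Or.inl hy) hyC
    · refine ⟨a, ?_, Or.inl rfl⟩
      by_contra h
      exact hyC (Or.inr (Or.inl ⟨a, not_le.1 h, rfl⟩))
    · refine ⟨a, ?_, Or.inr rfl⟩
      by_contra h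
      exact hyC (Or.inr (Or.inr ⟨a, not_le.1 h, rfl⟩))
  have : Nonempty K := ⟨c⟩
  choose! ix hix1 hix2 using hidx
  let F' : Finset K := (F.filter (fun y => y ∉ Pre zz Y c)).image ix
  have hF' : ∀ b ∈ F', c ≤ b := by
    intro b hb
    obtain ⟨y, hy, rfl⟩ := Finset.mem_image.1 hb
    obtain ⟨hy1, hy2⟩ := Finset.mem_filter.1 hy
    exact hix1 y (hF hy1) hy2
  let F₀ : Finset ℝ := F.filter (fun y => y ∈ Pre zz Y c)
  have hF₀ : (F₀ : Set ℝ) ⊆ Pre zz Y c := by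
    intro y hy
    exact (Finset.mem_filter.1 (Finset.mem_coe.1 hy)).2
  have hinf := cat_infinite hY hdense hcov F₀ hF₀ F' hF'
  rw [hc] at hinf
  refine hinf.mono ?_
  rintro n ⟨h1, h2⟩ y hy
  by_cases hyC : y ∈ Pre zz Y c
  · exact h1 (Finset.mem_coe.2 (Finset.mem_filter.2 ⟨hy, hyC⟩))
  · have hmem : ix y ∈ F' := Finset.mem_image_of_mem _ (Finset.mem_filter.2 ⟨hy, hyC⟩)
    obtain ⟨h3, h4⟩ := h2 (ix y) hmem
    rcases hix2 y (hF hy) hyC with h5 | h5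
    · rw [h5]
      exact h3
    · rw [h5]
      exact h4

/-- The Rothberger property. -/
theorem rothberger_K
    (hsmall : ∀ C : Set ℝ, C.Nonempty → #C < 𝔠 → ∀ 𝒱 : ℕ → Set (Set ℝ),
      (∀ n, ∀ V ∈ 𝒱 n, IsOpen V) → (∀ n, C ⊆ ⋃₀ 𝒱 n) →
      ∃ V : ℕ → Set ℝ, (∀ n, V n ∈ 𝒱 n) ∧ C ⊆ ⋃ n, V n)
    (hb : IsTopologicalBasis (range B)) {H : (ℕ → Set ℕ) → ℕ → ℕ}
    {e : K → ℕ → Set ℕ} (he : Function.Surjective e) {Y : K → ℝ × (ℕ → ℕ)}
    (hY : ∀ a, Rq B zz e H a Y (Y a)) (𝒱 : ℕ → Set (Set ℝ))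
    (hV : ∀ n, ∀ V ∈ 𝒱 n, IsOpen V) (hcov : ∀ n, XK zz Y ⊆ ⋃₀ 𝒱 n) :
    ∃ V : ℕ → Set ℝ, (∀ n, V n ∈ 𝒱 n) ∧ XK zz Y ⊆ ⋃ n, V n := by
  classical
  -- even indices cover the rationals
  obtain ⟨q, hq⟩ := exists_surjective_nat ℚ
  have h1 : ∀ k, ∃ V ∈ 𝒱 (2 * k), ((q k : ℚ) : ℝ) ∈ V := fun k =>
    hcov (2 * k) (Or.inl ⟨q k, rfl⟩)
  choose V0 hV0 hqV0 using h1
  let G : Set ℝ := ⋃ k, V0 k
  have hGo : IsOpen G := isOpen_iUnion fun k => hV _ _ (hV0 k)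
  have hQG : range ((↑) : ℚ → ℝ) ⊆ G := by
    rintro _ ⟨r, rfl⟩
    obtain ⟨k, rfl⟩ := hq r
    exact mem_iUnion.2 ⟨k, hqV0 k⟩
  have hGU : (⋃ m, U B {i | B i ⊆ G} m) = G := by
    apply Subset.antisymm
    · intro y hy
      obtain ⟨m, hm⟩ := mem_iUnion.1 hy
      obtain ⟨i, hi, -, hyi⟩ := mem_U.1 hm
      exact hi hyi
    · intro y hy
      obtain ⟨_, ⟨i, rfl⟩, hyi, hiG⟩ := hb.exists_subset_of_mem_open hy hGo
      exact mem_iUnion.2 ⟨i, mem_U.2 ⟨i, hiG, le_refl i, hyi⟩⟩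
  obtain ⟨c, hc⟩ := he (fun _ => {i | B i ⊆ G})
  have hdense : DenseCode B (e c) := by
    intro n
    rw [hc, hGU]
    exact Rat.denseRange_cast.mono hQG
  have hlate : ∀ a, c ≤ a → (Y a).1 ∈ G ∧ zz a - (Y a).1 ∈ G := by
    intro a ha
    have h2 := (hY a).2.2.1 c ha hdense 0
    rw [hc, hGU] at h2
    exact h2
  -- the small rest
  obtain ⟨V1, hV1, hCV1⟩ := hsmall (Pre zz Y c) (pre_infinite Y c).nonempty (mk_pre Y c)
    (fun k => 𝒱 (2 * k + 1)) (fun k => hV _) (fun k => (pre_sub_XK Y c).trans (hcov _))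
  refine ⟨fun n => if Even n then V0 (n / 2) else V1 (n / 2), fun n => ?_, ?_⟩
  · rcases Nat.even_or_odd' n with ⟨k, rfl | rfl⟩
    · have h3 : Even (2 * k) := even_two_mul k
      have h4 : 2 * k / 2 = k := by omega
      simp only [h3, if_true, h4]
      exact hV0 k
    · have h3 : ¬ Even (2 * k + 1) := by
        rw [Nat.not_even_iff_odd]
        exact odd_two_mul_add_one k
      have h4 : (2 * k + 1) / 2 = k := by omega
      simp only [h3, if_false, h4]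
      exact hV1 k
  · have hGsub : G ⊆ ⋃ n, (if Even n then V0 (n / 2) else V1 (n / 2)) := by
      intro y hy
      obtain ⟨k, hk⟩ := mem_iUnion.1 hy
      refine mem_iUnion.2 ⟨2 * k, ?_⟩
      have h3 : Even (2 * k) := even_two_mul k
      have h4 : 2 * k / 2 = k := by omega
      simp only [h3, if_true, h4]
      exact hk
    have hCsub : Pre zz Y c ⊆ ⋃ n, (if Even n then V0 (n / 2) else V1 (n / 2)) := by
      intro y hy
      obtain ⟨k, hk⟩ := mem_iUnion.1 (hCV1 hy)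
      refine mem_iUnion.2 ⟨2 * k + 1, ?_⟩
      have h3 : ¬ Even (2 * k + 1) := by
        rw [Nat.not_even_iff_odd]
        exact odd_two_mul_add_one k
      have h4 : (2 * k + 1) / 2 = k := by omega
      simp only [h3, if_false, h4]
      exact hk
    rintro y (hy | ⟨a, rfl⟩ | ⟨a, rfl⟩)
    · exact hGsub (hQG hy)
    · rcases le_or_gt c a with h | h
      · exact hGsub (hlate a h).1
      · exact hCsub (Or.inr (Or.inl ⟨a, h, rfl⟩))
    · rcases le_or_gt c a with h | h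
      · exact hGsub (hlate a h).2
      · exact hCsub (Or.inr (Or.inr ⟨a, h, rfl⟩))

/-- The functional form of the Scheepers property, for arbitrary increasing open sets. -/
theorem scheepers_K (hb : IsTopologicalBasis (range B)) {H : (ℕ → Set ℕ) → ℕ → ℕ}
    {e : K → ℕ → Set ℕ} (he : Function.Surjective e) {Y : K → ℝ × (ℕ → ℕ)}
    (hY : ∀ a, Rq B zz e H a Y (Y a)) (O : ℕ → ℕ → Set ℝ) (hO : ∀ n m, IsOpen (O n m))
    (hmono : ∀ n, Monotone (O n)) (hcov : ∀ n, XK zz Y ⊆ ⋃ m, O n m) :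
    ∃ h : ℕ → ℕ, ∀ F : Finset ℝ, (F : Set ℝ) ⊆ XK zz Y →
      {n | (F : Set ℝ) ⊆ O n (h n)}.Infinite := by
  classical
  let I : ℕ → Set ℕ := fun n => {i | ∃ m, B i ⊆ O n m}
  have hI : ∀ n, XK zz Y ⊆ ⋃ m, U B (I n) m := by
    intro n y hy
    obtain ⟨m, hm⟩ := mem_iUnion.1 (hcov n hy)
    obtain ⟨_, ⟨i, rfl⟩, hyi, hiO⟩ := hb.exists_subset_of_mem_open hm (hO n m)
    exact mem_iUnion.2 ⟨i, mem_U.2 ⟨i, ⟨m, hiO⟩, le_refl i, hyi⟩⟩
  obtain ⟨h, hh⟩ := scheepers_code_K he hY hI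
  have hg : ∀ n i, ∃ m, i ∈ I n → B i ⊆ O n m := by
    intro n i
    by_cases hi : i ∈ I n
    · obtain ⟨m, hm⟩ := hi
      exact ⟨m, fun _ => hm⟩
    · exact ⟨0, fun h => absurd h hi⟩
  choose g hg using hg
  refine ⟨fun n => (Finset.range (h n + 1)).sup (g n), fun F hF => (hh F hF).mono ?_⟩
  intro n hn y hy
  obtain ⟨i, hi, him, hyi⟩ := mem_U.1 (hn hy)
  exact hmono n (Finset.le_sup (f := g n) (Finset.mem_range.2 (Nat.lt_succ_of_le him)))
    (hg n i hi hyi)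

end recursion

/-- **Main construction.** -/
theorem exists_set_K (hint : INTER)
    (hbd : ∀ (ι : Type), #ι < 𝔠 → ∀ f : ι → ℕ → ℕ, ∃ g : ℕ → ℕ, ∀ i, {n | f i n ≤ g n}.Infinite)
    (hsmall : ∀ C : Set ℝ, C.Nonempty → #C < 𝔠 → ∀ 𝒱 : ℕ → Set (Set ℝ),
      (∀ n, ∀ V ∈ 𝒱 n, IsOpen V) → (∀ n, C ⊆ ⋃₀ 𝒱 n) →
      ∃ V : ℕ → Set ℝ, (∀ n, V n ∈ 𝒱 n) ∧ C ⊆ ⋃ n, V n) :
    ∃ X : Set ℝ, X.Nonempty ∧
    (∀ z ∈ Icc (0 : ℝ) 1, ∃ x ∈ X, ∃ y ∈ X, x + y = z) ∧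
    (∀ 𝒱 : ℕ → Set (Set ℝ), (∀ n, ∀ V ∈ 𝒱 n, IsOpen V) → (∀ n, X ⊆ ⋃₀ 𝒱 n) →
      ∃ V : ℕ → Set ℝ, (∀ n, V n ∈ 𝒱 n) ∧ X ⊆ ⋃ n, V n) ∧
    (∀ O : ℕ → ℕ → Set ℝ, (∀ n m, IsOpen (O n m)) → (∀ n, Monotone (O n)) →
      (∀ n, X ⊆ ⋃ m, O n m) → ∃ h : ℕ → ℕ, ∀ F : Finset ℝ, (F : Set ℝ) ⊆ X →
        {n | (F : Set ℝ) ⊆ O n (h n)}.Infinite) := by
  classical
  obtain ⟨B, hB, hb⟩ := exists_basis
  have hH : ∀ I : ℕ → Set ℕ, ∃ h : ℕ → ℕ, DenseCode B I → ∀ n, ∀ z ∈ Icc (0 : ℝ) 1, ∀ j ≤ n,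
      (B j).Nonempty → ∃ x ∈ B j, x ∈ U B (I n) (h n) ∧ z - x ∈ U B (I n) (h n) := by
    intro I
    by_cases hI : DenseCode B I
    · obtain ⟨h, hh⟩ := exists_h hB hI
      exact ⟨h, fun _ => hh⟩
    · exact ⟨0, fun h => absurd h hI⟩
  choose H hH using hH
  obtain ⟨e, he⟩ := exists_surjection_K (α := ℕ → Set ℕ) (by simp)
  have : Nonempty (Icc (0 : ℝ) 1) := ⟨⟨0, by simp⟩⟩
  obtain ⟨z, hz⟩ := exists_surjection_K (α := Icc (0 : ℝ) 1) (by
    refine (Cardinal.mk_set_le _).trans ?_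
    rw [Cardinal.mk_real])
  obtain ⟨Y, hY⟩ := exists_family_K (zz := fun a => (z a : ℝ)) hint hbd hB hb hH
    (fun a => (z a).2) e
  refine ⟨XK (fun a => (z a : ℝ)) Y, ⟨_, Or.inl ⟨0, rfl⟩⟩, fun t ht => ?_,
    fun 𝒱 h1 h2 => rothberger_K hsmall hb he hY 𝒱 h1 h2,
    fun O h1 h2 h3 => scheepers_K hb he hY O h1 h2 h3⟩
  obtain ⟨a, ha⟩ := hz ⟨t, ht⟩
  refine ⟨(Y a).1, Or.inr (Or.inl ⟨a, rfl⟩), z a - (Y a).1, Or.inr (Or.inr ⟨a, rfl⟩), ?_⟩
  rw [ha]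
  ring

end Pool.Agent.N355.MA
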