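import Pool.Agent.N355.MA.Stm

/-!
Repartition of a family of sets: from a partition in which every finite set is caught infinitely
often to a multifinite partition or a partition without covering blocks (MP_ef066b_gt).
-/

set_option autoImplicit false

namespace Pool.Agent.N355.MA

open Set Filter Topology Cardinal TopologicalSpace

theorem repart_inf (X : Set ℝ) (𝒰 : Set (Set ℝ)) (𝓕 : ℕ → Set (Set ℝ))
    (hP : IsPart 𝒰 𝓕) (hU : ∀ u ∈ 𝒰, u ⊆ X ∧ u ≠ X)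
    (hinf : {n | ⋃₀ 𝓕 n = X}.Infinite) : ∃ 𝓖, IsPart 𝒰 𝓖 ∧ ∀ n, ⋃₀ 𝓖 n = X := by
  classical
  obtain ⟨hfin, hne, hdis, hun⟩ := hP
  have hsub : ∀ n u, u ∈ 𝓕 n → u ∈ 𝒰 := by
    intro n u hu
    rw [hun]
    exact Set.mem_iUnion.2 ⟨n, hu⟩
  set p : ℕ → Prop := fun n => ⋃₀ 𝓕 n = X with hp
  have hpi : {n | p n}.Infinite := hinf
  have hcount : ∀ k, Nat.count p (Nat.nth p k) = k := fun k => Nat.count_nth_of_infinite hpi k
  have hmem : ∀ k, p (Nat.nth p k) := fun k => Nat.nth_mem_of_infinite hpi k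
  refine ⟨fun k => {u | ∃ n, Nat.count p n = k ∧ u ∈ 𝓕 n}, ⟨?_, ?_, ?_, ?_⟩, ?_⟩
  · intro k
    have hsubset : {u | ∃ n, Nat.count p n = k ∧ u ∈ 𝓕 n} ⊆
        ⋃ n ∈ Set.Iic (Nat.nth p k), 𝓕 n := by
      rintro u ⟨n, hn, hu⟩
      refine Set.mem_iUnion₂.2 ⟨n, ?_, hu⟩
      by_contra hlt
      have hlt' : Nat.nth p k < n := by
        simpa using hlt
      have h1 : Nat.count p (Nat.nth p k + 1) ≤ Nat.count p n := Nat.count_monotone p hlt'
      rw [Nat.count_succ, hcount k, if_pos (hmem k), hn] at h1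
      omega
    exact ((Set.finite_Iic _).biUnion fun n _ => hfin n).subset hsubset
  · intro k
    obtain ⟨u, hu⟩ := hne (Nat.nth p k)
    exact ⟨u, Nat.nth p k, hcount k, hu⟩
  · intro k l hkl
    rw [Set.disjoint_left]
    rintro u ⟨n, hn, hu⟩ ⟨n', hn', hu'⟩
    have hnn : n ≠ n' := by
      rintro rfl
      exact hkl (hn.symm.trans hn')
    exact Set.disjoint_left.1 (hdis n n' hnn) hu hu'
  · ext u
    constructor
    · intro hu
      rw [hun] at hu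
      obtain ⟨n, hn⟩ := Set.mem_iUnion.1 hu
      exact Set.mem_iUnion.2 ⟨Nat.count p n, n, rfl, hn⟩
    · intro hu
      obtain ⟨k, n, _, hn⟩ := Set.mem_iUnion.1 hu
      exact hsub n u hn
  · intro k
    apply Set.Subset.antisymm
    · rintro x ⟨u, ⟨n, _, hu⟩, hx⟩
      exact (hU u (hsub n u hu)).1 hx
    · intro x hx
      have h1 : x ∈ ⋃₀ 𝓕 (Nat.nth p k) := by
        have := hmem k
        rw [hp] at this
        rw [this]
        exact hx
      obtain ⟨u, hu, hxu⟩ := h1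
      exact ⟨u, ⟨Nat.nth p k, hcount k, hu⟩, hxu⟩

theorem repart_fin (X : Set ℝ) (𝒰 : Set (Set ℝ)) (𝓕 : ℕ → Set (Set ℝ))
    (hP : IsPart 𝒰 𝓕) (hU : ∀ u ∈ 𝒰, u ⊆ X ∧ u ≠ X)
    (hF : ∀ F : Finset ℝ, (F : Set ℝ) ⊆ X → {n | (F : Set ℝ) ⊆ ⋃₀ 𝓕 n}.Infinite)
    (hfinS : {n | ⋃₀ 𝓕 n = X}.Finite) :
    ∃ 𝓖, IsPart 𝒰 𝓖 ∧ (∀ n, ⋃₀ 𝓖 n ≠ X) ∧
      ∀ F : Finset ℝ, (F : Set ℝ) ⊆ X → ∃ n, (F : Set ℝ) ⊆ ⋃₀ 𝓖 n := by
  classical
  obtain ⟨hfin, hne, hdis, hun⟩ := hP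
  have hsub : ∀ n u, u ∈ 𝓕 n → u ∈ 𝒰 := by
    intro n u hu
    rw [hun]
    exact Set.mem_iUnion.2 ⟨n, hu⟩
  obtain ⟨B, hB⟩ := hfinS.bddAbove
  set N := B + 1 with hN
  have hbig : ∀ n, N ≤ n → ⋃₀ 𝓕 n ≠ X := by
    intro n hn heq
    have : n ≤ B := hB heq
    omega
  have hHfin : (⋃ n ∈ Set.Iio N, 𝓕 n).Finite := (Set.finite_Iio N).biUnion fun n _ => hfin n
  set Hs : Finset (Set ℝ) := hHfin.toFinset with hHs
  have hHmem : ∀ u, u ∈ Hs ↔ ∃ n, n < N ∧ u ∈ 𝓕 n := by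
    intro u
    rw [hHs, Set.Finite.mem_toFinset]
    simp
  set M := Hs.card with hM
  set e : Hs ≃ Fin M := Hs.equivFin with he
  set U : ∀ k, k < M → Set ℝ := fun k hk => ((e.symm ⟨k, hk⟩ : Hs) : Set ℝ) with hUdef
  have hUmem : ∀ k hk, ∃ n, n < N ∧ U k hk ∈ 𝓕 n := fun k hk =>
    (hHmem _).1 (e.symm ⟨k, hk⟩).2
  have hUinj : ∀ k hk l hl, U k hk = U l hl → k = l := by
    intro k hk l hl hkl
    have h1 : e.symm ⟨k, hk⟩ = e.symm ⟨l, hl⟩ := Subtype.ext hkl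
    have h2 := e.symm.injective h1
    exact congrArg Fin.val h2
  have hUsurj : ∀ u ∈ Hs, ∃ k hk, U k hk = u := by
    intro u hu
    refine ⟨(e ⟨u, hu⟩).1, (e ⟨u, hu⟩).2, ?_⟩
    simp [hUdef]
  set 𝓖 : ℕ → Set (Set ℝ) := fun k =>
    if h : k < M then {U k h} else 𝓕 (N + (k - M)) with h𝓖
  have hGlt : ∀ k (hk : k < M), 𝓖 k = {U k hk} := by
    intro k hk
    simp only [h𝓖, dif_pos hk]
  have hGge : ∀ k, ¬ k < M → 𝓖 k = 𝓕 (N + (k - M)) := by
    intro k hk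
    simp only [h𝓖, dif_neg hk]
  have hdis1 : ∀ k (hk : k < M) l, ¬ l < M → Disjoint (𝓖 k) (𝓖 l) := by
    intro k hk l hl
    rw [hGlt k hk, hGge l hl, Set.disjoint_singleton_left]
    intro hmem
    obtain ⟨n, hn, hu⟩ := hUmem k hk
    have hnn : n ≠ N + (l - M) := by omega
    exact Set.disjoint_left.1 (hdis _ _ hnn) hu hmem
  refine ⟨𝓖, ⟨?_, ?_, ?_, ?_⟩, ?_, ?_⟩
  · intro k
    by_cases hk : k < M
    · rw [hGlt k hk]
      exact Set.finite_singleton _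
    · rw [hGge k hk]
      exact hfin _
  · intro k
    by_cases hk : k < M
    · rw [hGlt k hk]
      exact Set.singleton_nonempty _
    · rw [hGge k hk]
      exact hne _
  · intro k l hkl
    by_cases hk : k < M
    · by_cases hl : l < M
      · rw [hGlt k hk, hGlt l hl, Set.disjoint_singleton]
        intro heq
        exact hkl (hUinj k hk l hl heq)
      · exact hdis1 k hk l hl
    · by_cases hl : l < M
      · exact (hdis1 l hl k hk).symm
      · rw [hGge k hk, hGge l hl]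
        apply hdis
        omega
  · ext u
    constructor
    · intro hu
      rw [hun] at hu
      obtain ⟨n, hn⟩ := Set.mem_iUnion.1 hu
      by_cases hnN : n < N
      · obtain ⟨k, hk, hku⟩ := hUsurj u ((hHmem u).2 ⟨n, hnN, hn⟩)
        refine Set.mem_iUnion.2 ⟨k, ?_⟩
        rw [hGlt k hk, hku]
        exact Set.mem_singleton u
      · refine Set.mem_iUnion.2 ⟨M + (n - N), ?_⟩
        rw [hGge _ (by omega)]
        have : N + (M + (n - N) - M) = n := by omega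
        rw [this]
        exact hn
    · intro hu
      obtain ⟨k, hk⟩ := Set.mem_iUnion.1 hu
      by_cases hkM : k < M
      · rw [hGlt k hkM, Set.mem_singleton_iff] at hk
        obtain ⟨n, _, hn⟩ := hUmem k hkM
        rw [hk]
        exact hsub n _ hn
      · rw [hGge k hkM] at hk
        exact hsub _ u hk
  · intro k
    by_cases hk : k < M
    · rw [hGlt k hk, Set.sUnion_singleton]
      obtain ⟨n, _, hn⟩ := hUmem k hk
      exact (hU _ (hsub n _ hn)).2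
    · rw [hGge k hk]
      exact hbig _ (by omega)
  · intro F hFX
    obtain ⟨n, hn, hnN⟩ := (hF F hFX).exists_gt N
    refine ⟨M + (n - N), ?_⟩
    rw [hGge _ (by omega)]
    have : N + (M + (n - N) - M) = n := by omega
    rw [this]
    exact hn

theorem repart : REPART_stm := by
  intro X 𝒰 𝓕 hP hU hF
  by_cases hinf : {n | ⋃₀ 𝓕 n = X}.Infinite
  · exact Or.inl (repart_inf X 𝒰 𝓕 hP hU hinf)
  · exact Or.inr (repart_fin X 𝒰 𝓕 hP hU hF (Set.not_infinite.1 hinf))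

end Pool.Agent.N355.MA

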