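import Pool.Agent.N355.MA.Stm

/-!
Sets with fewer than continuum many points are Rothberger.
-/

set_option autoImplicit false

namespace Pool.Agent.N355.MA

open Set Filter Topology Cardinal TopologicalSpace

/-- nonempty sets with fewer than continuum many points are Rothberger -/
theorem small :
    (∀ (ι : Type), #ι < 𝔠 → ∀ f : ι → ℕ → ℕ, ∃ g : ℕ → ℕ, ∀ i, ∃ n, g n = f i n) →
    ∀ C : Set ℝ, C.Nonempty → #C < 𝔠 → ∀ 𝒱 : ℕ → Set (Set ℝ), (∀ n, ∀ V ∈ 𝒱 n, IsOpen V) →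
      (∀ n, C ⊆ ⋃₀ 𝒱 n) → ∃ V : ℕ → Set ℝ, (∀ n, V n ∈ 𝒱 n) ∧ C ⊆ ⋃ n, V n := by
  intro hguess C hne hC 𝒱 hopen hcov
  have h1 : ∀ n, ∃ W : ℕ → Set ℝ, (∀ i, W i ∈ 𝒱 n) ∧ ∀ y ∈ C, ∃ i, y ∈ W i := by
    intro n
    obtain ⟨T, hT1, hT2, hT3⟩ := TopologicalSpace.isOpen_sUnion_countable (𝒱 n) (hopen n)
    have hTC : C ⊆ ⋃₀ T := by
      rw [hT3]
      exact hcov n
    have hTne : T.Nonempty := by
      obtain ⟨y, hy⟩ := hne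
      obtain ⟨V, hV, -⟩ := hTC hy
      exact ⟨V, hV⟩
    obtain ⟨W, hW⟩ := hT1.exists_eq_range hTne
    refine ⟨W, fun i => hT2 (hW ▸ mem_range_self i), fun y hy => ?_⟩
    obtain ⟨V, hV, hyV⟩ := hTC hy
    rw [hW] at hV
    obtain ⟨i, rfl⟩ := hV
    exact ⟨i, hyV⟩
  choose W hW1 hW2 using h1
  choose i hi using fun (n : ℕ) (y : ↥C) => hW2 n y.1 y.2
  obtain ⟨g, hg⟩ := hguess ↥C hC (fun y n => i n y)
  refine ⟨fun n => W n (g n), fun n => hW1 n _, fun y hy => ?_⟩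
  obtain ⟨n, hn⟩ := hg ⟨y, hy⟩
  refine mem_iUnion.2 ⟨n, ?_⟩
  rw [hn]
  exact hi n ⟨y, hy⟩

end Pool.Agent.N355.MA
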